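import Pool.Agent.Lib.MP_8b2ae4_lc.Main

/-! # MP_8b2ae4_lc: graphs of NLC-width at most `k` are recognisable in polynomial time -/

set_option autoImplicit false

namespace Pool.Agent.Results.MP_8b2ae4_lc.Recognition

open NLC N68a2faeb

/-- For every fixed `k` there is a polynomial-time computable function which decides from the
adjacency matrix of a graph `G` whether `G` is a `k`-NLC graph; for graphs with at least one vertex
this is the question whether the NLC-width of `G` is at most `k`. -/
theorem result (k : ℕ) :
    ∃ f : List (List Bool) → Bool, IsPolyTime f ∧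
      ∀ (n : ℕ) (G : SimpleGraph (Fin n)) [DecidableRel G.Adj],
        (f (adjMat G) = true ↔ IsNLC k G) ∧ (1 ≤ n → (f (adjMat G) = true ↔ nlcWidth G ≤ k)) := by
  obtain ⟨f, hf, h⟩ := main k
  exact ⟨f, hf, fun n G _ => ⟨h n G, fun hn => by rw [h, nlcWidth_le_iff hn]⟩⟩

end Pool.Agent.Results.MP_8b2ae4_lc.Recognition
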